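import Pool.Agent.R623.AF.Stm

/-!
Piece MAIN of project AF (helper623): the final deduction.
-/

set_option autoImplicit false

namespace Pool.Agent.R623.AF

open NumberField IsDedekindDomain

namespace MainPiece

lemma isInt_of_val (K : Type) [Field K] [NumberField K] (s : K)
    (h : ∀ v : HeightOneSpectrum (𝓞 K), v.valuation K s ≤ 1) : IsIntegral ℤ s := by
  obtain ⟨a, rfl⟩ := HeightOneSpectrum.mem_integers_of_valuation_le_one K s h
  exact NumberField.RingOfIntegers.isIntegral_coe a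

lemma growth (d : ℕ) (C : ℝ) (hC : 0 ≤ C) : ∃ B : ℕ, ∀ p : ℕ, B < p →
    C * ((⌈16 * (d : ℝ) * Real.log p⌉₊ + 16 * d : ℕ) : ℝ) ^ 2 + C ≤ p := by
  have hc : (0 : ℝ) < 1 / (C * ((32 * d + 1) ^ 2 + 1) + 1) := by positivity
  have h1 := (Real.isLittleO_pow_log_id_atTop (n := 2)).def hc
  have h2 := tendsto_natCast_atTop_atTop (R := ℝ) |>.eventually h1
  obtain ⟨B, hB⟩ := Filter.eventually_atTop.1 h2
  refine ⟨max B 3, fun p hp => ?_⟩
  have hpB := hB p (le_of_lt (lt_of_le_of_lt (le_max_left _ _) hp))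
  have hp3 : 3 < p := lt_of_le_of_lt (le_max_right _ _) hp
  have hp3' : (3 : ℝ) < p := by exact_mod_cast hp3
  have hl1 : 1 ≤ Real.log p := by
    rw [Real.le_log_iff_exp_le (by linarith)]
    have := Real.exp_one_lt_d9
    linarith
  rw [Real.norm_eq_abs, abs_of_nonneg (by positivity), id, Real.norm_eq_abs,
    abs_of_nonneg (by positivity), div_mul_eq_mul_div, one_mul, le_div_iff₀ (by positivity)] at hpB
  have hL : ((⌈16 * (d : ℝ) * Real.log p⌉₊ + 16 * d : ℕ) : ℝ) ≤ (32 * d + 1) * Real.log p := by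
    have h3 := (Nat.ceil_lt_add_one (a := 16 * (d : ℝ) * Real.log p) (by positivity)).le
    have h4 : (0 : ℝ) ≤ d := Nat.cast_nonneg d
    push_cast
    nlinarith
  have hL2 : ((⌈16 * (d : ℝ) * Real.log p⌉₊ + 16 * d : ℕ) : ℝ) ^ 2 ≤ (32 * d + 1) ^ 2 * Real.log p ^ 2 := by
    rw [← mul_pow]
    exact pow_le_pow_left₀ (Nat.cast_nonneg _) hL 2
  have hl2 : (1 : ℝ) ≤ Real.log p ^ 2 := by nlinarith
  calc C * ((⌈16 * (d : ℝ) * Real.log p⌉₊ + 16 * d : ℕ) : ℝ) ^ 2 + C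
      ≤ C * ((32 * d + 1) ^ 2 * Real.log p ^ 2) + C * Real.log p ^ 2 := by
        have := mul_le_mul_of_nonneg_left hL2 hC
        have := mul_le_mul_of_nonneg_left hl2 hC
        linarith
    _ ≤ Real.log p ^ 2 * (C * ((32 * d + 1) ^ 2 + 1) + 1) := by nlinarith
    _ ≤ p := hpB

lemma key (hBK : S_BK) (K : Type) [Field K] [NumberField K] (x y : K) (p L h : ℕ) (σ₀ : K →+* ℂ)
    (hp : p.Prime) (hp2 : 2 < p) (hx : x ≠ 0) (hy : y ≠ 0) (hxy : x ^ p + y ^ p = 1) (hh : 1 ≤ h)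
    (h1 : 16 * Module.finrank ℚ K * Real.log p ≤ L) (h2 : 16 * Module.finrank ℚ K ≤ L)
    (h3 : 578 * L ≤ p)
    (hint : ∀ i j : ℕ, i + j ≤ L * (578 * L) → IsIntegral ℤ ((x + y) * x ^ i * y ^ j))
    (hP : ∏ σ : K →+* ℂ, max 1 (max ‖σ x‖ ‖σ y‖) ≤ Real.exp h) :
    p * Real.log ‖σ₀ x‖ < 339264 * h * (L : ℝ) ^ 2 + 1 := by
  have hb := hBK K x y p L h σ₀ hp hx hy hxy hh h1 h2 h3 hint hP
  have hodd : Odd p := hp.odd_of_ne_two (by omega)
  have hσx : σ₀ x ≠ 0 := (map_ne_zero σ₀).2 hx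
  have e1 : (-(σ₀ y) / σ₀ x) ^ p - 1 = - (1 / (σ₀ x) ^ p) := by
    have e2 : (σ₀ x) ^ p + (σ₀ y) ^ p = 1 := by rw [← map_pow, ← map_pow, ← map_add, hxy, map_one]
    have e3 : (σ₀ x) ^ p ≠ 0 := pow_ne_zero _ hσx
    rw [div_pow, hodd.neg_pow]
    field_simp
    linear_combination -e2
  rw [e1, norm_neg, norm_div, norm_one, norm_pow] at hb
  have hpos : 0 < ‖σ₀ x‖ := norm_pos_iff.2 hσx
  have h4 := Real.log_lt_log (Real.exp_pos _) hb
  rw [Real.log_exp, one_div, Real.log_inv, Real.log_pow] at h4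
  linarith

lemma val_le (hLOC : S_LOC) (hDEN : S_DEN) (K : Type) [Field K] [NumberField K] (x y : K) (p : ℕ)
    (hp : p.Prime) (hp2 : 2 * Module.finrank ℚ K + 3 ≤ p) (hx : x ≠ 0) (hy : y ≠ 0)
    (hxy : x ^ p + y ^ p = 1) (hall : ∀ v : HeightOneSpectrum (𝓞 K), v.valuation K (x + y) ≤ 1)
    (hP : ∏ σ : K →+* ℂ, max 1 (max ‖σ x‖ ‖σ y‖) < 2) (v : HeightOneSpectrum (𝓞 K)) :
    v.valuation K x ≤ 1 := by
  by_contra hc
  rw [not_le] at hc
  have hd1 : 0 < Module.finrank ℚ K := Module.finrank_pos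
  have hodd : Odd p := hp.odd_of_ne_two (by omega)
  have hs : x + y ≠ 0 := by
    intro h0
    have hy' : y = -x := by linear_combination h0
    rw [hy', hodd.neg_pow, add_neg_cancel] at hxy
    exact zero_ne_one hxy
  have h1 := (hLOC K v p x y hp (by omega) hxy hx hy (hall v)).2 hc (p - 1 - Module.finrank ℚ K) (by omega)
  have h2 := hDEN K v (x + y) (p - 1 - Module.finrank ℚ K) hs (isInt_of_val K _ hall) h1
  have h3 : ∏ σ : K →+* ℂ, ‖σ (x + y)‖ ≤ ∏ σ : K →+* ℂ, (2 * max 1 (max ‖σ x‖ ‖σ y‖)) := by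
    refine Finset.prod_le_prod (fun σ _ => norm_nonneg _) fun σ _ => ?_
    rw [map_add]
    refine (norm_add_le _ _).trans ?_
    have ha : ‖σ x‖ ≤ max 1 (max ‖σ x‖ ‖σ y‖) := (le_max_left _ _).trans (le_max_right _ _)
    have hb : ‖σ y‖ ≤ max 1 (max ‖σ x‖ ‖σ y‖) := (le_max_right _ _).trans (le_max_right _ _)
    linarith
  rw [Finset.prod_mul_distrib, Finset.prod_const, Finset.card_univ, NumberField.Embeddings.card] at h3
  have h4 : (2 : ℝ) ^ (p - 1 - Module.finrank ℚ K) < 2 ^ (Module.finrank ℚ K + 1) := by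
    rw [pow_succ]
    refine (h2.trans h3).trans_lt ?_
    exact mul_lt_mul_of_pos_left hP (by positivity)
  have h5 := (pow_lt_pow_iff_right₀ (by norm_num : (1 : ℝ) < 2)).1 h4
  omega

end MainPiece

open MainPiece in
theorem MAIN (hBK : S_BK) (hLOC : S_LOC) (hDEN : S_DEN) (hKRO : S_KRO) : S_MAIN := by
  intro K _ _ hK
  obtain ⟨δ, hδ, hkro⟩ := hKRO K hK
  obtain ⟨d, hd⟩ : ∃ d : ℕ, d = Module.finrank ℚ K := ⟨_, rfl⟩
  have hd1 : 1 ≤ d := by rw [hd]; exact Module.finrank_pos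
  have hd1' : (1 : ℝ) ≤ d := by exact_mod_cast hd1
  have hlog : 0 < Real.log (1 + δ) := Real.log_pos (by linarith)
  obtain ⟨q, hq⟩ : ∃ q : ℝ, q = 1 / Real.log (1 + δ) := ⟨_, rfl⟩
  have hq0 : 0 < q := by rw [hq]; positivity
  obtain ⟨B, hB⟩ := growth d (848160 * d + (2 * d + 3) + 339264 * d * q) (by positivity)
  refine ⟨B, fun p hp hBp x y hx hy hxy hall => ?_⟩
  have hg := hB p hBp
  obtain ⟨L, hL⟩ : ∃ L : ℕ, L = ⌈16 * (d : ℝ) * Real.log p⌉₊ + 16 * d := ⟨_, rfl⟩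
  rw [← hL] at hg
  have hL2 : (0 : ℝ) ≤ (L : ℝ) ^ 2 := by positivity
  have hdL : (L : ℝ) ^ 2 ≤ d * (L : ℝ) ^ 2 := by nlinarith
  have hqL : 0 ≤ (d : ℝ) * q * (L : ℝ) ^ 2 := by positivity
  have hqd : 0 ≤ (d : ℝ) * q := by positivity
  have hp_a : 2 * d + 3 ≤ p := by
    have : (2 * d + 3 : ℝ) ≤ p := by nlinarith
    exact_mod_cast this
  have hp_b : 578 * L ^ 2 + d + 1 ≤ p := by
    have : (578 * (L : ℝ) ^ 2 + d + 1 : ℝ) ≤ p := by nlinarith
    exact_mod_cast this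
  have hp_c : 578 * L ≤ p := by
    have : L ≤ L ^ 2 := by nlinarith [Nat.zero_le L, Nat.le_self_pow (n := 2) (by norm_num) L]
    omega
  have hp_e : (d : ℝ) * (848160 * (L : ℝ) ^ 2 + 2) ≤ p := by nlinarith
  have hp_f : (339264 * (L : ℝ) ^ 2 + 1) * d * q ≤ p := by nlinarith
  have h16 : 16 * (Module.finrank ℚ K : ℝ) * Real.log p ≤ L := by
    rw [← hd, hL]
    push_cast
    have := Nat.le_ceil (16 * (d : ℝ) * Real.log p)
    have : (0 : ℝ) ≤ 16 * d := by positivity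
    linarith
  have h16' : 16 * Module.finrank ℚ K ≤ L := by rw [← hd, hL]; omega
  have hyx : y ^ p + x ^ p = 1 := by rw [add_comm]; exact hxy
  have hall' : ∀ v : HeightOneSpectrum (𝓞 K), v.valuation K (y + x) ≤ 1 := by
    intro v; rw [add_comm]; exact hall v
  have hint : ∀ i j : ℕ, i + j ≤ L * (578 * L) → IsIntegral ℤ ((x + y) * x ^ i * y ^ j) := by
    intro i j hij
    refine isInt_of_val K _ fun v => ?_
    refine (hLOC K v p x y hp (by omega) hxy hx hy (hall v)).1 i j ?_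
    have : L * (578 * L) = 578 * L ^ 2 := by ring
    omega
  have hint' : ∀ i j : ℕ, i + j ≤ L * (578 * L) → IsIntegral ℤ ((y + x) * y ^ i * x ^ j) := by
    intro i j hij
    have := hint j i (by omega)
    have h2 : (y + x) * y ^ i * x ^ j = (x + y) * x ^ j * y ^ i := by ring
    rw [h2]; exact this
  -- the height
  obtain ⟨P, hP⟩ : ∃ P : ℝ, P = ∏ σ : K →+* ℂ, max 1 (max ‖σ x‖ ‖σ y‖) := ⟨_, rfl⟩
  have hP' : P = ∏ σ : K →+* ℂ, max 1 (max ‖σ y‖ ‖σ x‖) := by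
    rw [hP]; exact Finset.prod_congr rfl fun σ _ => by rw [max_comm ‖σ x‖]
  have hne : Nonempty (K →+* ℂ) := by
    rw [← Fintype.card_pos_iff, NumberField.Embeddings.card]
    exact Module.finrank_pos
  obtain ⟨σ₀, -, hσ₀⟩ := Finset.exists_max_image (Finset.univ : Finset (K →+* ℂ))
    (fun σ => max 1 (max ‖σ x‖ ‖σ y‖)) Finset.univ_nonempty
  obtain ⟨m, hm⟩ : ∃ m : ℝ, m = max 1 (max ‖σ₀ x‖ ‖σ₀ y‖) := ⟨_, rfl⟩
  have hm1 : 1 ≤ m := by rw [hm]; exact le_max_left _ _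
  have hPd : P ≤ m ^ d := by
    rw [hP]
    calc ∏ σ : K →+* ℂ, max 1 (max ‖σ x‖ ‖σ y‖) ≤ ∏ _σ : K →+* ℂ, m := by
          refine Finset.prod_le_prod (fun σ _ => by positivity) fun σ hσ => ?_
          rw [hm]; exact hσ₀ σ hσ
      _ = m ^ d := by
          rw [Finset.prod_const, Finset.card_univ, NumberField.Embeddings.card, hd]
  have hmain : ∀ h : ℕ, 1 ≤ h → P ≤ Real.exp h → 1 < P →
      p * Real.log P < d * (339264 * h * (L : ℝ) ^ 2 + 1) := by
    intro h hh hPh hP1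
    have hm1' : 1 < m := by
      rcases hm1.lt_or_eq with h0 | h0
      · exact h0
      · rw [← h0, one_pow] at hPd
        exact absurd (hPd.trans_lt hP1) (lt_irrefl _)
    have hlP : Real.log P ≤ d * Real.log m := by
      rw [← Real.log_pow]
      exact Real.log_le_log (by linarith) hPd
    have hk : p * Real.log m < 339264 * h * (L : ℝ) ^ 2 + 1 := by
      have hmax : m = max ‖σ₀ x‖ ‖σ₀ y‖ := by
        rcases max_choice 1 (max ‖σ₀ x‖ ‖σ₀ y‖) with h0 | h0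
        · rw [h0] at hm; linarith
        · rw [h0] at hm; exact hm
      rcases max_choice ‖σ₀ x‖ ‖σ₀ y‖ with h0 | h0
      · rw [hmax, h0]
        exact key hBK K x y p L h σ₀ hp (by omega) hx hy hxy hh h16 h16' hp_c hint (hP ▸ hPh)
      · rw [hmax, h0]
        exact key hBK K y x p L h σ₀ hp (by omega) hy hx hyx hh h16 h16' hp_c hint' (hP' ▸ hPh)
    have hp0 : (0 : ℝ) ≤ p := Nat.cast_nonneg p
    calc p * Real.log P ≤ p * (d * Real.log m) := mul_le_mul_of_nonneg_left hlP hp0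
      _ = d * (p * Real.log m) := by ring
      _ < _ := mul_lt_mul_of_pos_left hk (by linarith)
  rcases le_or_gt 2 P with hP2 | hP2
  · -- P ≥ 2
    have hl2 : (0.69 : ℝ) < Real.log P := by
      have h1 := Real.log_two_gt_d9
      have h2 := Real.log_le_log (by norm_num) hP2
      linarith
    have h1 : 1 ≤ ⌈Real.log P⌉₊ := Nat.one_le_ceil_iff.2 (by linarith)
    have h2 : P ≤ Real.exp (⌈Real.log P⌉₊ : ℕ) := by
      rw [← Real.log_le_iff_le_exp (by linarith)]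
      exact Nat.le_ceil _
    have h3 := hmain _ h1 h2 (by linarith)
    have h4 := Nat.ceil_lt_add_one (a := Real.log P) (by linarith)
    have h5 : (⌈Real.log P⌉₊ : ℝ) ≤ 2.5 * Real.log P := by linarith
    have h6 : (d : ℝ) * (339264 * (⌈Real.log P⌉₊ : ℝ) * (L : ℝ) ^ 2 + 1) ≤
        (d * (848160 * (L : ℝ) ^ 2 + 2)) * Real.log P := by
      have h7 : 339264 * (⌈Real.log P⌉₊ : ℝ) * (L : ℝ) ^ 2 ≤ 339264 * (2.5 * Real.log P) * (L : ℝ) ^ 2 := by
        refine mul_le_mul_of_nonneg_right ?_ hL2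
        linarith
      have h8 : 339264 * (⌈Real.log P⌉₊ : ℝ) * (L : ℝ) ^ 2 + 1 ≤ (848160 * (L : ℝ) ^ 2 + 2) * Real.log P := by
        nlinarith
      calc (d : ℝ) * (339264 * (⌈Real.log P⌉₊ : ℝ) * (L : ℝ) ^ 2 + 1)
          ≤ d * ((848160 * (L : ℝ) ^ 2 + 2) * Real.log P) := mul_le_mul_of_nonneg_left h8 (by linarith)
        _ = _ := by ring
    have h9 : (d * (848160 * (L : ℝ) ^ 2 + 2)) * Real.log P ≤ p * Real.log P :=
      mul_le_mul_of_nonneg_right hp_e (by linarith)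
    linarith
  · -- P < 2
    have hxi : IsIntegral ℤ x := isInt_of_val K x fun v =>
      val_le hLOC hDEN K x y p hp (by omega) hx hy hxy hall (hP ▸ hP2) v
    have hyi : IsIntegral ℤ y := isInt_of_val K y fun v =>
      val_le hLOC hDEN K y x p hp (by omega) hy hx hyx hall' (hP' ▸ hP2) v
    have h1 := hkro p hp.pos x y hxi hyi hx hy hxy
    rw [← hP] at h1
    have h2 : P ≤ Real.exp (1 : ℕ) := by
      have := Real.add_one_le_exp (1 : ℝ)
      push_cast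
      linarith
    have h3 := hmain 1 le_rfl h2 (by linarith)
    have h4 : Real.log (1 + δ) ≤ Real.log P := Real.log_le_log (by linarith) h1
    have h5 : (p : ℝ) * Real.log (1 + δ) < d * (339264 * (L : ℝ) ^ 2 + 1) := by
      refine (mul_le_mul_of_nonneg_left h4 (Nat.cast_nonneg p)).trans_lt ?_
      push_cast at h3
      linarith
    have h6 : (339264 * (L : ℝ) ^ 2 + 1) * d * q * Real.log (1 + δ) ≤ p * Real.log (1 + δ) :=
      mul_le_mul_of_nonneg_right hp_f hlog.le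
    have h7 : q * Real.log (1 + δ) = 1 := by rw [hq]; field_simp
    have h8 : (339264 * (L : ℝ) ^ 2 + 1) * d * q * Real.log (1 + δ) = (339264 * (L : ℝ) ^ 2 + 1) * d := by
      rw [mul_assoc, h7, mul_one]
    linarith

end Pool.Agent.R623.AF
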