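import Pool.Agent.R554.DO.Chk

/-!
Auxiliary lemmas for the pieces DCHK and NEM of project DO (helper554).
-/

set_option autoImplicit false

namespace Pool.Agent.R478.DOaux

open Pool.Agent.R554.DO

lemma wt_cast (D : ℕ) (p : ℚ) (hp : 0 ≤ p) (hd : p.den ∣ D) : ((wt D p : ℕ) : ℚ) = p * D := by
  obtain ⟨k, rfl⟩ := hd
  unfold wt
  rw [Nat.mul_div_cancel_left k p.den_pos]
  have h1 : ((p.num.natAbs : ℕ) : ℚ) = (p.num : ℚ) := by
    rw [Nat.cast_natAbs, abs_of_nonneg (Rat.num_nonneg.2 hp)]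
  have h3 : p * (p.den : ℚ) = p.num := Rat.mul_den_eq_num p
  rw [Nat.cast_mul, h1, Nat.cast_mul, ← mul_assoc, h3]

lemma sum_wt {α : Type} (D : ℕ) (f : α → ℚ) (L : List α) (h0 : ∀ x ∈ L, 0 ≤ f x)
    (hd : ∀ x ∈ L, (f x).den ∣ D) :
    (((L.map (fun x => wt D (f x))).sum : ℕ) : ℚ) = (L.map f).sum * D := by
  induction L with
  | nil => simp
  | cons x L ih =>
    rw [List.map_cons, List.map_cons, List.sum_cons, List.sum_cons, Nat.cast_add,
      wt_cast D (f x) (h0 x (by simp)) (hd x (by simp)),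
      ih (fun y hy => h0 y (by simp [hy])) (fun y hy => hd y (by simp [hy]))]
    ring

lemma okQ_iff (D : ℕ) (p : ℚ) : okQ D p = true ↔ 0 ≤ p ∧ p.den ∣ D := by
  unfold okQ
  simp only [Bool.and_eq_true, Bool.not_eq_true', decide_eq_false_iff_not, not_lt, decide_eq_true_eq,
    Rat.num_nonneg, Nat.dvd_iff_mod_eq_zero]

lemma chkV_iff (I : Inst) (D : ℕ) : chkV I D = true ↔
    (I.2.2.length = nst I ∧ 0 < D ∧ (∀ x ∈ I.2.1, 0 ≤ x ∧ x.den ∣ D) ∧
      (∀ x ∈ I.2.2, 0 ≤ x ∧ x.den ∣ D) ∧ (I.2.1.map (wt D)).sum = D ∧ (I.2.2.map (wt D)).sum = D ∧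
      (∀ e ∈ I.1, src e < nst I ∧ tgt e < nst I ∧ (0 ≤ pb e ∧ (pb e).den ∣ D) ∧
        ((I.1.filter (fun f => decide (src f = src e ∧ act f = act e))).map
          (fun f => wt D (pb f))).sum = D) ∧
      ∀ s < nst I, ∃ e ∈ I.1, src e = s) := by
  unfold chkV
  simp only [Bool.and_eq_true, decide_eq_true_eq, List.all_eq_true, List.any_eq_true, okQ_iff,
    List.mem_range, Bool.decide_and, and_assoc]

lemma chkS_iff (I : Inst) (K : ℕ) (Y : List (ℕ × ℕ × ℕ)) : chkS I K Y = true ↔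
    (0 < K ∧ (∀ k ∈ Y, ∃ e ∈ I.1, src e = k.1 ∧ act e = k.2.1) ∧
      ∀ s < nst I, ((Y.filter (fun k => decide (k.1 = s))).map (fun k => k.2.2)).sum = K) := by
  unfold chkS
  simp only [Bool.and_eq_true, decide_eq_true_eq, List.all_eq_true, List.any_eq_true,
    List.mem_range, and_assoc]

lemma map_sum_eq_D {α : Type} (D : ℕ) (hD : 0 < D) (f : α → ℚ) (L : List α) (h0 : ∀ x ∈ L, 0 ≤ f x)
    (hd : ∀ x ∈ L, (f x).den ∣ D) :
    (L.map (fun x => wt D (f x))).sum = D ↔ (L.map f).sum = 1 := by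
  have h := sum_wt D f L h0 hd
  have hD' : (D : ℚ) ≠ 0 := by exact_mod_cast hD.ne'
  constructor
  · intro h1
    rw [h1] at h
    have : ((L.map f).sum - 1) * (D : ℚ) = 0 := by rw [sub_mul, ← h]; ring
    rcases mul_eq_zero.1 this with h2 | h2
    · linarith
    · exact absurd h2 hD'
  · intro h1
    rw [h1, one_mul] at h
    exact_mod_cast h

end Pool.Agent.R478.DOaux
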