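import Pool.Agent.Y718.Quartic

/-!
# The curves `Y² = X ((X + d²)² + g² X)`

For `(g, d) = (k, 1)` and `(g, d) = (1, k)`, `k ≥ 1`, a rational point with `X ≠ 0, -d²` has
infinite order; here: the curve has infinitely many rational points.
-/

set_option autoImplicit false

namespace Pool.Agent.R478.TriEC

open Pool.Agent.Y718

/-- a rational number which is not an integer is not `p`-integral for some prime `p` -/
theorem exists_norm_gt (q : ℚ) (hq : q.den ≠ 1) : ∃ (p : ℕ) (_ : Fact p.Prime),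
    1 < ‖(q : ℚ_[p])‖ := by
  refine ⟨q.den.minFac, ⟨Nat.minFac_prime hq⟩, ?_⟩
  have : Fact (q.den.minFac).Prime := ⟨Nat.minFac_prime hq⟩
  set p := q.den.minFac with hp
  have h1 : p ∣ q.den := Nat.minFac_dvd _
  have hden : ‖((q.den : ℤ) : ℚ_[p])‖ < 1 := by
    rw [Padic.norm_intCast_lt_one_iff]
    exact_mod_cast h1
  have hnum : ‖((q.num : ℤ) : ℚ_[p])‖ = 1 := by
    apply le_antisymm (Padic.norm_int_le_one _)
    by_contra hcon
    push Not at hcon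
    rw [Padic.norm_intCast_lt_one_iff] at hcon
    have h2 : p ∣ q.num.natAbs := Int.natCast_dvd.1 hcon
    have h3 := Nat.dvd_gcd h2 h1
    rw [q.reduced] at h3
    exact (Nat.minFac_prime hq).one_lt.ne' (Nat.dvd_one.1 h3)
  have hden0 : 0 < ‖((q.den : ℤ) : ℚ_[p])‖ := by
    rw [norm_pos_iff]
    have := q.den_nz
    exact_mod_cast this
  have h4 : (q : ℚ_[p]) = ((q.num : ℤ) : ℚ_[p]) / ((q.den : ℤ) : ℚ_[p]) := by
    have := q.num_div_den
    conv_lhs => rw [← this]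
    push_cast
    rfl
  rw [h4, norm_div, hnum, one_div]
  exact (one_lt_inv₀ hden0).2 hden

/-- the curve `Y² = X³ + a X² + b X` with integers `a`, `b` has infinitely many rational points if
it has one with `9 X` not an integer -/
theorem inf_of_den (a b : ℤ) (X Y : ℚ) (h : Y ^ 2 = X ^ 3 + a * X ^ 2 + b * X)
    (hX : (9 * X).den ≠ 1) :
    {z : ℚ × ℚ | z.2 ^ 2 = z.1 ^ 3 + a * z.1 ^ 2 + b * z.1}.Infinite := by
  have hX' : (9 * X + 3 * a).den ≠ 1 := by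
    intro h1
    apply hX
    have h2 : 9 * X = (9 * X + 3 * a) - ((3 * a : ℤ) : ℚ) := by push_cast; ring
    rw [h2, ← Rat.coe_int_num_of_den_eq_one h1, ← Int.cast_sub]
    exact Rat.den_intCast _
  obtain ⟨p, hp, hn⟩ := exists_norm_gt _ hX'
  have key := inf_short (p := p) (((81 * b - 27 * a ^ 2 : ℤ) : ℚ))
    (((54 * a ^ 3 - 243 * a * b : ℤ) : ℚ)) (9 * X + 3 * a) (27 * Y) ?_ ?_ ?_ hn
  · intro hfin
    apply key
    refine Set.Finite.of_finite_image (f := fun z : ℚ × ℚ => ((z.1 - 3 * a) / 9, z.2 / 27))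
      (hfin.subset ?_) ?_
    · rintro _ ⟨⟨x, y⟩, hz, rfl⟩
      simp only [Set.mem_ofPred_eq] at hz ⊢
      push_cast at hz
      field_simp
      linear_combination 729 * hz
    · rintro ⟨x, y⟩ - ⟨x', y'⟩ - h
      simp only [Prod.mk.injEq] at h ⊢
      exact ⟨by linarith [h.1], by linarith [h.2]⟩
  · have := Padic.norm_int_le_one (p := p) (81 * b - 27 * a ^ 2)
    exact_mod_cast this
  · have := Padic.norm_int_le_one (p := p) (54 * a ^ 3 - 243 * a * b)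
    exact_mod_cast this
  · push_cast
    linear_combination 729 * h

/-- doubling -/
theorem double (a b X Y : ℚ) (h : Y ^ 2 = X ^ 3 + a * X ^ 2 + b * X) (hX : X ≠ 0) (hY : Y ≠ 0) :
    ∃ w : ℚ, w ^ 2 = ((X ^ 2 - b) / (2 * Y)) ^ 4 + a * ((X ^ 2 - b) / (2 * Y)) ^ 2 + b := by
  refine ⟨(X ^ 4 + 2 * a * X ^ 3 + 6 * b * X ^ 2 + 2 * a * b * X + b ^ 2) / (4 * Y ^ 2), ?_⟩
  have key : (X ^ 4 + 2 * a * X ^ 3 + 6 * b * X ^ 2 + 2 * a * b * X + b ^ 2) ^ 2 =
      (X ^ 2 - b) ^ 4 + 4 * a * (X ^ 2 - b) ^ 2 * Y ^ 2 + 16 * b * (Y ^ 2) ^ 2 := by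
    rw [h]; ring
  field_simp
  linear_combination 16 * key

/-- a rational number whose square is a natural number is an integer up to the sign -/
theorem int_of_sq (q : ℚ) (n : ℕ) (h : q ^ 2 = n) : ∃ m : ℕ, m ^ 2 = n ∧ (q = m ∨ q = -m) := by
  have h1 : IsSquare (n : ℚ) := ⟨q, by rw [← h]; ring⟩
  rw [Rat.isSquare_natCast_iff] at h1
  obtain ⟨m, hm⟩ := h1
  refine ⟨m, by rw [hm]; ring, ?_⟩
  have h2 : q ^ 2 = (m : ℚ) ^ 2 := by rw [h, hm]; push_cast; ring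
  exact sq_eq_sq_iff_eq_or_eq_neg.1 h2

/-- The main step: a rational point of `Y² = X ((X + d²)² + g² X)` with `X ≠ 0` and `X ≠ -d²`,
for `d = 1` or `g = 1`, leads to infinitely many. -/
theorem inf_points (g d : ℕ) (hg : 0 < g) (hd : 0 < d) (hgd : d = 1 ∨ g = 1) (X Y : ℚ)
    (h : Y ^ 2 = X * ((X + (d : ℚ) ^ 2) ^ 2 + (g : ℚ) ^ 2 * X)) (hX : X ≠ 0)
    (hX2 : X ≠ -(d : ℚ) ^ 2) :
    {z : ℚ × ℚ | z.2 ^ 2 = z.1 * ((z.1 + (d : ℚ) ^ 2) ^ 2 + (g : ℚ) ^ 2 * z.1)}.Infinite := by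
  -- the curve in the other form
  set a : ℤ := 2 * (d : ℤ) ^ 2 + (g : ℤ) ^ 2 with ha
  set b : ℤ := (d : ℤ) ^ 4 with hb
  have haq : (a : ℚ) = 2 * (d : ℚ) ^ 2 + (g : ℚ) ^ 2 := by rw [ha]; push_cast; ring
  have hbq : (b : ℚ) = (d : ℚ) ^ 4 := by rw [hb]; push_cast; ring
  have hset : {z : ℚ × ℚ | z.2 ^ 2 = z.1 * ((z.1 + (d : ℚ) ^ 2) ^ 2 + (g : ℚ) ^ 2 * z.1)} =
      {z : ℚ × ℚ | z.2 ^ 2 = z.1 ^ 3 + a * z.1 ^ 2 + b * z.1} := by
    ext z
    simp only [Set.mem_ofPred_eq]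
    rw [haq, hbq]
    constructor
    · intro h; linear_combination h
    · intro h; linear_combination h
  rw [hset]
  have hgq : (0 : ℚ) < g := by exact_mod_cast hg
  have hdq : (0 : ℚ) < d := by exact_mod_cast hd
  -- `4 d² + g²` is not a square
  have hns : ∀ q : ℚ, q ^ 2 ≠ 4 * (d : ℚ) ^ 2 + (g : ℚ) ^ 2 := by
    intro q hq
    obtain ⟨m, hm, -⟩ := int_of_sq q (4 * d ^ 2 + g ^ 2) (by rw [hq]; push_cast; ring)
    rcases hgd with rfl | rfl
    · have h1 : g < m := by nlinarith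
      have h2 : m < g + 2 := by nlinarith
      have h3 : m = g + 1 := by omega
      subst h3
      ring_nf at hm
      omega
    · have h1 : 2 * d < m := by nlinarith
      have h2 : m < 2 * d + 1 := by nlinarith
      omega
  have h' : Y ^ 2 = X ^ 3 + a * X ^ 2 + b * X := by rw [haq, hbq]; linear_combination h
  have hY : Y ≠ 0 := by
    rintro rfl
    have h1 : (X + (d : ℚ) ^ 2) ^ 2 + (g : ℚ) ^ 2 * X = 0 := by
      have : X * ((X + (d : ℚ) ^ 2) ^ 2 + (g : ℚ) ^ 2 * X) = 0 := by rw [← h]; ring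
      exact (mul_eq_zero.1 this).resolve_left hX
    apply hns ((2 * X + 2 * (d : ℚ) ^ 2 + (g : ℚ) ^ 2) / g)
    rw [div_pow, div_eq_iff (by positivity)]
    linear_combination 4 * h1
  -- the double
  set r : ℚ := (X ^ 2 - b) / (2 * Y) with hr
  have hr0 : r ≠ 0 := by
    rw [hr]
    refine div_ne_zero ?_ (by simpa using hY)
    intro h1
    rw [hbq] at h1
    have h2 : (X - (d : ℚ) ^ 2) * (X + (d : ℚ) ^ 2) = 0 := by linear_combination h1
    rcases mul_eq_zero.1 h2 with h3 | h3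
    · have h4 : X = (d : ℚ) ^ 2 := by linarith
      rw [h4] at h
      apply hns (Y / (d : ℚ) ^ 2)
      rw [div_pow, h, div_eq_iff (by positivity)]
      ring
    · exact hX2 (by linarith)
  obtain ⟨w, hw⟩ := double a b X Y h' hX hY
  rw [← hr] at hw
  clear_value r
  -- numerator and denominator
  obtain ⟨R, S, hR0, hS0, hRS, hrR⟩ : ∃ R S : ℕ, 0 < R ∧ 0 < S ∧ Nat.Coprime R S ∧
      r ^ 2 = (R : ℚ) ^ 2 / (S : ℚ) ^ 2 := by
    refine ⟨r.num.natAbs, r.den, Int.natAbs_pos.2 (Rat.num_ne_zero.2 hr0), r.pos, r.reduced, ?_⟩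
    have h1 : ((r.num.natAbs : ℕ) : ℚ) ^ 2 = (r.num : ℚ) ^ 2 := by
      rw [Nat.cast_natAbs, Int.cast_abs, sq_abs]
    rw [h1, ← div_pow, Rat.num_div_den]
  have hRq : (0 : ℚ) < R := by exact_mod_cast hR0
  have hSq : (0 : ℚ) < S := by exact_mod_cast hS0
  by_cases c1 : (9 * r ^ 2).den = 1
  swap
  · exact inf_of_den a b (r ^ 2) (r * w) (by linear_combination r ^ 2 * hw) c1
  by_cases c2 : (9 * (b / r ^ 2)).den = 1
  swap
  · refine inf_of_den a b (b / r ^ 2) (b * w / r ^ 3) ?_ c2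
    have h6 : (b * w / r ^ 3) ^ 2 = b ^ 2 * w ^ 2 / r ^ 6 := by ring
    rw [h6, hw]
    field_simp
    ring
  -- `S ∣ 3` and `R ∣ 3 d ^ 2`
  have hS3 : S ∣ 3 := by
    have h1 : ((9 * r ^ 2).num : ℚ) * (S : ℚ) ^ 2 = 9 * (R : ℚ) ^ 2 := by
      rw [Rat.coe_int_num_of_den_eq_one c1, hrR]
      field_simp
    have h2 : ((S : ℤ)) ^ 2 ∣ 9 * (R : ℤ) ^ 2 := ⟨(9 * r ^ 2).num, by
      have : ((9 * (R : ℤ) ^ 2 : ℤ) : ℚ) = ((S : ℤ) ^ 2 * (9 * r ^ 2).num : ℤ) := by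
        push_cast; rw [← h1]; ring
      exact_mod_cast this⟩
    have h3 : S ^ 2 ∣ 3 ^ 2 * R ^ 2 := by exact_mod_cast h2
    have h4 : S ^ 2 ∣ 3 ^ 2 := ((hRS.symm.pow 2 2)).dvd_of_dvd_mul_right h3
    exact (Nat.pow_dvd_pow_iff two_ne_zero).1 h4
  have hR3 : R ∣ 3 * d ^ 2 := by
    have h1 : ((9 * (b / r ^ 2)).num : ℚ) * (R : ℚ) ^ 2 = 9 * (d : ℚ) ^ 4 * (S : ℚ) ^ 2 := by
      rw [Rat.coe_int_num_of_den_eq_one c2, hrR, hbq]
      field_simp
    have h2 : ((R : ℤ)) ^ 2 ∣ 9 * (d : ℤ) ^ 4 * (S : ℤ) ^ 2 := ⟨(9 * (b / r ^ 2)).num, by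
      have : ((9 * (d : ℤ) ^ 4 * (S : ℤ) ^ 2 : ℤ) : ℚ) =
          ((R : ℤ) ^ 2 * (9 * (b / r ^ 2)).num : ℤ) := by
        push_cast; rw [← h1]; ring
      exact_mod_cast this⟩
    have h3 : R ^ 2 ∣ 9 * d ^ 4 * S ^ 2 := by exact_mod_cast h2
    have h4 : R ^ 2 ∣ 9 * d ^ 4 := ((hRS.pow 2 2)).dvd_of_dvd_mul_right h3
    have h5 : 9 * d ^ 4 = (3 * d ^ 2) ^ 2 := by ring
    rw [h5] at h4
    exact (Nat.pow_dvd_pow_iff two_ne_zero).1 h4
  -- the square
  obtain ⟨W, hW, -⟩ := int_of_sq (w * (S : ℚ) ^ 2)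
    ((R ^ 2 + d ^ 2 * S ^ 2) ^ 2 + g ^ 2 * R ^ 2 * S ^ 2) (by
      have h4 : r ^ 4 = ((R : ℚ) ^ 2 / (S : ℚ) ^ 2) ^ 2 := by rw [← hrR]; ring
      rw [mul_pow, hw, h4, hrR, haq, hbq]
      push_cast
      field_simp
      ring)
  rcases hgd with rfl | rfl
  · -- `d = 1`
    have hR3' : R ∣ 3 := by simpa using hR3
    have cR : R = 1 ∨ R = 3 := (Nat.dvd_prime Nat.prime_three).1 hR3'
    have cS : S = 1 ∨ S = 3 := (Nat.dvd_prime Nat.prime_three).1 hS3
    have key : ∀ g W : ℕ, 0 < g → W ^ 2 = 100 + 9 * g ^ 2 → g = 8 := by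
      intro g W hg0 hW
      have h1 : 3 * g < W := by nlinarith
      obtain ⟨e, rfl⟩ := Nat.exists_eq_add_of_lt h1
      have h2 : e < 9 := by nlinarith
      interval_cases e <;> ring_nf at hW <;> omega
    have hexp : g = 8 → {z : ℚ × ℚ | z.2 ^ 2 = z.1 ^ 3 + a * z.1 ^ 2 + b * z.1}.Infinite := by
      intro hg8
      refine inf_of_den a b (400 / 1521) (130580 / 59319) ?_ ?_
      · rw [haq, hbq, hg8]; norm_num
      · norm_num
    rcases cR with rfl | rfl <;> rcases cS with rfl | rfl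
    · exfalso
      apply hns W
      have : (W : ℚ) ^ 2 = ((W ^ 2 : ℕ) : ℚ) := by push_cast; ring
      rw [this, hW]; push_cast; ring
    · exact hexp (key g W hg (by rw [hW]; ring))
    · exact hexp (key g W hg (by rw [hW]; ring))
    · exact absurd hRS (by decide)
  · -- `g = 1`
    exfalso
    obtain ⟨R', hR'⟩ := hR3
    have hR'0 : 0 < R' := by
      rcases Nat.eq_zero_or_pos R' with h0 | h0
      · rw [h0, mul_zero] at hR'
        have : 0 < 3 * d ^ 2 := by positivity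
        omega
      · exact h0
    have h1 : (3 * W) ^ 2 = R ^ 2 * ((3 * R + R' * S ^ 2) ^ 2 + 9 * S ^ 2) := by
      have h2 : (3 * W) ^ 2 = (3 * R ^ 2 + (3 * d ^ 2) * S ^ 2) ^ 2 + 9 * (R ^ 2 * S ^ 2) := by
        rw [mul_pow, hW]; ring
      rw [h2, hR']
      ring
    have h2 : R ∣ 3 * W := by
      have : R ^ 2 ∣ (3 * W) ^ 2 := ⟨_, h1⟩
      exact (Nat.pow_dvd_pow_iff two_ne_zero).1 this
    obtain ⟨V, hV⟩ := h2
    have h3 : V ^ 2 = (3 * R + R' * S ^ 2) ^ 2 + 9 * S ^ 2 := by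
      rw [hV, mul_pow] at h1
      exact Nat.eq_of_mul_eq_mul_left (by positivity) h1
    have cS : S = 1 ∨ S = 3 := (Nat.dvd_prime Nat.prime_three).1 hS3
    rcases cS with rfl | rfl
    · have h4 : V ^ 2 = (3 * R + R') ^ 2 + 9 := by rw [h3]; ring
      have h5 : 3 * R + R' < V := by nlinarith
      have h6 : 3 * R + R' ≤ 4 := by nlinarith
      have h7 : R = 1 := by omega
      have h8 : R' = 1 := by omega
      subst h7 h8
      omega
    · have h4 : V ^ 2 = (3 * R + 9 * R') ^ 2 + 81 := by rw [h3]; ring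
      obtain ⟨v, hv⟩ : ∃ v, v = 3 * R + 9 * R' := ⟨_, rfl⟩
      rw [← hv] at h4
      have hv12 : 12 ≤ v := by omega
      have h5 : v < V := by
        by_contra hcon
        push Not at hcon
        have := Nat.pow_le_pow_left hcon 2
        omega
      obtain ⟨e, he⟩ := Nat.exists_eq_add_of_lt h5
      have h7 : 2 * (v * (e + 1)) + (e + 1) * (e + 1) = 81 := by
        rw [he] at h4
        have : (v + e + 1) ^ 2 = v ^ 2 + (2 * (v * (e + 1)) + (e + 1) * (e + 1)) := by ring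
        omega
      have h6 : e < 3 := by
        by_contra hcon
        push Not at hcon
        have : 12 * 4 ≤ v * (e + 1) := Nat.mul_le_mul hv12 (by omega)
        omega
      have h9 : R = 1 ∧ R' = 1 := by
        interval_cases e <;> omega
      rw [h9.1, h9.2] at hR'
      omega

end Pool.Agent.R478.TriEC
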